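import Mathlib
import Pool.Agent.helper73.SHL.Spec
import Pool.Agent.helper99.PR.LSPAN

/-!
# Row shl:ORA, the maximal order
-/

set_option autoImplicit false

namespace Pool.Agent.SHL

open Matrix Module Pool.Agent.PR

/-- a rational number integral at all primes is an integer -/
theorem ORA_rat (r : ℚ) (h : ∀ q : Nat.Primes, ‖(r : ℚ_[(q : ℕ)])‖ ≤ 1) : ∃ z : ℤ, r = z := by
  by_contra hz
  have hden : r.den ≠ 1 := by
    intro h1
    exact hz ⟨r.num, ((Rat.den_eq_one_iff r).1 h1).symm⟩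
  obtain ⟨p, hp, hpd⟩ := Nat.exists_prime_and_dvd hden
  haveI : Fact p.Prime := ⟨hp⟩
  have h1 := h ⟨p, hp⟩
  have h2 : ((r.num : ℤ) : ℚ_[p]) = (r : ℚ_[p]) * ((r.den : ℕ) : ℚ_[p]) := by
    have h3 : (r : ℚ) * (r.den : ℚ) = (r.num : ℚ) := Rat.mul_den_eq_num r
    exact_mod_cast h3.symm
  have h4 : ‖((r.den : ℕ) : ℚ_[p])‖ < 1 := Padic.norm_natCast_lt_one_iff.2 hpd
  have h6 : ‖((r.num : ℤ) : ℚ_[p])‖ < 1 := by
    rw [h2, norm_mul]
    calc ‖(r : ℚ_[p])‖ * ‖((r.den : ℕ) : ℚ_[p])‖ ≤ 1 * ‖((r.den : ℕ) : ℚ_[p])‖ :=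
          mul_le_mul_of_nonneg_right h1 (norm_nonneg _)
      _ < 1 := by rw [one_mul]; exact h4
  rw [Padic.norm_intCast_lt_one_iff] at h6
  have h7 : p ∣ r.num.natAbs := by
    rwa [← Int.natCast_dvd]
  have h8 : p ∣ Nat.gcd r.num.natAbs r.den := Nat.dvd_gcd h7 hpd
  rw [r.reduced] at h8
  exact hp.one_lt.ne' (Nat.dvd_one.1 h8)

/-- density: a matrix with integral pairings with the dense subgroup is integral -/
theorem ORA_K {n : ℕ} (hn : 2 ≤ n) {Λ : Type} (q : ℕ) [Fact q.Prime]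
    (s : Λ → GL (Fin n) ℤ_[q])
    (hd : ∀ A : Matrix (Fin n) (Fin n) ℤ_[q], A.det = 1 → ∀ m : ℕ, m ≠ 0 →
      ∃ l : Λ, MC m (s l : Matrix (Fin n) (Fin n) ℤ_[q]) A)
    (X : Matrix (Fin n) (Fin n) ℚ_[q])
    (hX : ∀ l, (X * qM (s l)).trace ∈ PadicInt.subring q) (i j : Fin n) :
    X i j ∈ PadicInt.subring q := by
  have hq0 : (q : ℝ) ≠ 0 := by
    exact_mod_cast (Fact.out : q.Prime).ne_zero
  -- a denominator
  obtain ⟨m, hm⟩ : ∃ m : ℕ, ∀ a b, ((q : ℚ_[q]) ^ m) * X a b ∈ PadicInt.subring q := by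
    obtain ⟨m, hm⟩ := pow_unbounded_of_one_lt (∑ a, ∑ b, ‖X a b‖)
      (show (1 : ℝ) < (q : ℝ) by exact_mod_cast (Fact.out : q.Prime).one_lt)
    refine ⟨m, fun a b => ?_⟩
    rw [PadicInt.mem_subring_iff, norm_mul, norm_pow, Padic.norm_p]
    have h1 : ‖X a b‖ ≤ (q : ℝ) ^ m := by
      refine le_trans ?_ hm.le
      refine le_trans ?_ (Finset.single_le_sum (f := fun a => ∑ b, ‖X a b‖)
        (fun a _ => Finset.sum_nonneg fun b _ => norm_nonneg _) (Finset.mem_univ a))
      exact Finset.single_le_sum (f := fun b => ‖X a b‖) (fun b _ => norm_nonneg _)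
        (Finset.mem_univ b)
    have h2 : (0 : ℝ) < (q : ℝ) ^ m := by
      have := (Fact.out : q.Prime).pos
      positivity
    rw [inv_pow, inv_mul_le_iff₀ h2, mul_one]
    exact h1
  have key : ∀ B : Matrix (Fin n) (Fin n) ℤ_[q], B.det = 1 →
      ∑ a, ∑ b, X a b * (B b a : ℚ_[q]) ∈ PadicInt.subring q := by
    intro B hB
    obtain ⟨l, hl⟩ := hd B hB (q ^ m) (pow_ne_zero _ (Fact.out : q.Prime).ne_zero)
    have h1 : (X * qM (s l)).trace =
        ∑ a, ∑ b, X a b * (((s l : Matrix (Fin n) (Fin n) ℤ_[q]) b a : ℤ_[q]) : ℚ_[q]) := by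
      simp only [Matrix.trace, Matrix.diag_apply, Matrix.mul_apply]
      rfl
    have h2 : ∑ a, ∑ b, X a b * (B b a : ℚ_[q]) = (X * qM (s l)).trace -
        ∑ a, ∑ b, X a b * ((((s l : Matrix (Fin n) (Fin n) ℤ_[q]) b a - B b a : ℤ_[q])) :
          ℚ_[q]) := by
      rw [h1, ← Finset.sum_sub_distrib]
      refine Finset.sum_congr rfl fun a _ => ?_
      rw [← Finset.sum_sub_distrib]
      refine Finset.sum_congr rfl fun b _ => ?_
      rw [PadicInt.coe_sub]
      ring
    rw [h2]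
    refine Subring.sub_mem _ (hX l) ?_
    refine Subring.sum_mem _ fun a _ => Subring.sum_mem _ fun b _ => ?_
    obtain ⟨d, hd'⟩ := hl b a
    rw [hd']
    have h3 : X a b * ((((q ^ m : ℕ) : ℤ_[q]) * d : ℤ_[q]) : ℚ_[q]) =
        (((q : ℚ_[q]) ^ m) * X a b) * (d : ℚ_[q]) := by
      push_cast
      ring
    rw [h3]
    exact Subring.mul_mem _ (hm a b) d.2
  have keyZ : ∀ U : Matrix (Fin n) (Fin n) ℤ, U.det = 1 →
      ∑ a, ∑ b, X a b * ((U b a : ℤ) : ℚ_[q]) ∈ PadicInt.subring q := by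
    intro U hU
    have h1 := key (U.map (Int.castRingHom ℤ_[q]))
      (by rw [← RingHom.mapMatrix_apply, ← RingHom.map_det, hU, map_one])
    have h2 : ∑ a, ∑ b, X a b * ((U b a : ℤ) : ℚ_[q]) =
        ∑ a, ∑ b, X a b * (((U.map (Int.castRingHom ℤ_[q])) b a : ℤ_[q]) : ℚ_[q]) := by
      refine Finset.sum_congr rfl fun a _ => Finset.sum_congr rfl fun b _ => ?_
      rw [Matrix.map_apply, eq_intCast, PadicInt.coe_intCast]
    rw [h2]
    exact h1
  have hadd : ∀ A B : Matrix (Fin n) (Fin n) ℤ,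
      ∑ a, ∑ b, X a b * (((A + B) b a : ℤ) : ℚ_[q]) =
      (∑ a, ∑ b, X a b * ((A b a : ℤ) : ℚ_[q])) + ∑ a, ∑ b, X a b * ((B b a : ℤ) : ℚ_[q]) := by
    intro A B
    rw [← Finset.sum_add_distrib]
    refine Finset.sum_congr rfl fun a _ => ?_
    rw [← Finset.sum_add_distrib]
    refine Finset.sum_congr rfl fun b _ => ?_
    rw [Matrix.add_apply]
    push_cast
    ring
  have hsingle : ∀ c d : Fin n,
      ∑ a, ∑ b, X a b * ((Matrix.single c d (1 : ℤ) b a : ℤ) : ℚ_[q]) = X d c := by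
    intro c d
    rw [Finset.sum_eq_single d]
    · rw [Finset.sum_eq_single c]
      · simp
      · intro b _ hb
        rw [Matrix.single_apply_of_ne]
        · simp
        · intro h
          exact hb h.1.symm
      · simp
    · intro a _ ha
      apply Finset.sum_eq_zero
      intro b _
      rw [Matrix.single_apply_of_ne]
      · simp
      · intro h
        exact ha h.2.symm
    · simp
  have hone := keyZ 1 Matrix.det_one
  have hoff : ∀ a b : Fin n, a ≠ b → X b a ∈ PadicInt.subring q := by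
    intro a b hab
    have h := keyZ (1 + Matrix.single a b 1) (Matrix.det_transvection_of_ne a b hab 1)
    rw [hadd, hsingle] at h
    have h2 := Subring.sub_mem _ h hone
    rwa [add_sub_cancel_left] at h2
  have hdiag : ∀ a : Fin n, X a a ∈ PadicInt.subring q := by
    intro a
    obtain ⟨b, hab⟩ : ∃ b : Fin n, a ≠ b := by
      by_cases h0 : (a : ℕ) = 0
      · exact ⟨⟨1, by omega⟩, fun h => by rw [h] at h0; simp at h0⟩
      · exact ⟨⟨0, by omega⟩, fun h => h0 (by rw [h])⟩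
    have hdet : ((1 + Matrix.single a b (1 : ℤ)) * (1 + Matrix.single b a 1)).det = 1 := by
      rw [Matrix.det_mul]
      rw [show (1 + Matrix.single a b (1 : ℤ)).det = 1 from Matrix.det_transvection_of_ne a b hab 1,
        show (1 + Matrix.single b a (1 : ℤ)).det = 1 from Matrix.det_transvection_of_ne b a hab.symm 1,
        one_mul]
    have hexp : (1 + Matrix.single a b (1 : ℤ)) * (1 + Matrix.single b a 1) =
        1 + (Matrix.single a b 1 + (Matrix.single b a 1 + Matrix.single a a 1)) := by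
      rw [add_mul, one_mul, mul_add, mul_one, Matrix.single_mul_single_same, one_mul]
      abel
    have h := keyZ _ hdet
    rw [hexp, hadd, hadd, hadd, hsingle, hsingle, hsingle] at h
    have h2 := Subring.sub_mem _ (Subring.sub_mem _ (Subring.sub_mem _ h hone) (hoff a b hab))
      (hoff b a hab.symm)
    have h3 : (∑ x, ∑ y, X x y * (((1 : Matrix (Fin n) (Fin n) ℤ) y x : ℤ) : ℚ_[q])) +
        (X b a + (X a b + X a a)) -
        (∑ x, ∑ y, X x y * (((1 : Matrix (Fin n) (Fin n) ℤ) y x : ℤ) : ℚ_[q])) -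
        X b a - X a b = X a a := by ring
    rwa [h3] at h2
  by_cases h : i = j
  · rw [h]
    exact hdiag j
  · exact hoff j i (fun h' => h h'.symm)

/-- a matrix with zero pairings is zero -/
theorem ORA_zero {n : ℕ} (hn : 2 ≤ n) {Λ : Type} (q : ℕ) [Fact q.Prime]
    (s : Λ → GL (Fin n) ℤ_[q])
    (hd : ∀ A : Matrix (Fin n) (Fin n) ℤ_[q], A.det = 1 → ∀ m : ℕ, m ≠ 0 →
      ∃ l : Λ, MC m (s l : Matrix (Fin n) (Fin n) ℤ_[q]) A)
    (X : Matrix (Fin n) (Fin n) ℚ_[q])
    (hX : ∀ l, (X * qM (s l)).trace = 0) : X = 0 := by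
  ext i j
  rw [Matrix.zero_apply]
  by_contra h0
  -- scale the entry to be `q⁻¹`
  have h1 := ORA_K hn q s hd (((q : ℚ_[q])⁻¹ * (X i j)⁻¹) • X) (fun l => by
    rw [Matrix.smul_mul, Matrix.trace_smul, hX l, smul_zero]
    exact Subring.zero_mem _) i j
  rw [Matrix.smul_apply, smul_eq_mul, mul_assoc, inv_mul_cancel₀ h0, mul_one,
    PadicInt.mem_subring_iff, norm_inv, Padic.norm_p, inv_inv] at h1
  have h2 : (1 : ℝ) < (q : ℝ) := by exact_mod_cast (Fact.out : q.Prime).one_lt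
  linarith

theorem ORA_mem {n : ℕ} {R : Type} [Ring R] [Algebra ℚ R]
    (ψ : (q : Nat.Primes) → R →ₐ[ℚ] Matrix (Fin n) (Fin n) ℚ_[(q : ℕ)]) (x : R) :
    x ∈ OO ψ ↔ ∀ (q : Nat.Primes) (i j : Fin n), ψ q x i j ∈ PadicInt.subring (q : ℕ) := by
  unfold OO
  rw [Subring.mem_iInf]
  refine forall_congr' fun q => ?_
  rw [Subring.mem_comap]
  rfl

theorem ORA : ORA_stmt := by
  intro n hn Λ _ R _ _ _ σ ψ s τ hR hspan hψ hτ hdens
  have h1 : ∀ l, σ l ∈ OO ψ := by
    intro l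
    rw [ORA_mem]
    intro q i j
    rw [hψ]
    exact ((s q l : Matrix (Fin n) (Fin n) ℤ_[(q : ℕ)]) i j).2
  have h2 : ∀ x ∈ OO ψ, ∃ z : ℤ, τ x = z := by
    intro x hx
    rw [ORA_mem] at hx
    apply ORA_rat
    intro q
    rw [← hτ q x, ← PadicInt.mem_subring_iff]
    exact Subring.sum_mem _ fun i _ => hx q i i
  have h3 : ∀ x : R, (∀ y ∈ OO ψ, ∃ z : ℤ, τ (x * y) = z) → x ∈ OO ψ := by
    intro x hx
    rw [ORA_mem]
    intro q i j
    refine ORA_K hn (q : ℕ) (fun l => s q l) (hdens q) (ψ q x) (fun l => ?_) i j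
    rw [← hψ, ← map_mul, hτ]
    obtain ⟨z, hz⟩ := hx (σ l) (h1 l)
    rw [hz]
    have : ((z : ℚ) : ℚ_[(q : ℕ)]) = ((z : ℤ) : ℚ_[(q : ℕ)]) := by norm_cast
    rw [this]
    exact intCast_mem _ z
  refine ⟨h1, h2, h3, ?_⟩
  -- the trace form is linear
  let q₀ : Nat.Primes := ⟨2, Nat.prime_two⟩
  let τL : R →ₗ[ℚ] ℚ :=
    { toFun := τ
      map_add' := by
        intro x y
        have h : ((τ (x + y) : ℚ) : ℚ_[(q₀ : ℕ)]) = ((τ x + τ y : ℚ) : ℚ_[(q₀ : ℕ)]) := by
          rw [← hτ, map_add, Matrix.trace_add, hτ, hτ]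
          push_cast
          rfl
        exact_mod_cast h
      map_smul' := by
        intro c x
        have h : ((τ (c • x) : ℚ) : ℚ_[(q₀ : ℕ)]) = ((c * τ x : ℚ) : ℚ_[(q₀ : ℕ)]) := by
          rw [← hτ, map_smul, Matrix.trace_smul, hτ]
          rw [Rat.smul_def]
          push_cast
          rfl
        exact_mod_cast h }
  have hτL : ∀ x, τL x = τ x := fun x => rfl
  -- injectivity of `ψ q₀`
  have hinj : ∀ x, ψ q₀ x = 0 → x = 0 := by
    intro x hx
    -- the span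
    have hsp : Submodule.span ℚ_[(q₀ : ℕ)] (Set.range fun l => qM (s q₀ l)) = ⊤ := by
      by_contra hne
      obtain ⟨c, i₀, j₀, hc1, hc⟩ := LSPAN_fun _ hne
      have h0 := ORA_zero hn (q₀ : ℕ) (fun l => s q₀ l) (hdens q₀)
        (Matrix.of fun j i => ((c i j : ℤ_[(q₀ : ℕ)]) : ℚ_[(q₀ : ℕ)])) (fun l => by
          have h4 := hc (qM (s q₀ l)) (Submodule.subset_span ⟨l, rfl⟩)
          rw [← h4]
          simp only [Matrix.trace, Matrix.diag_apply, Matrix.mul_apply, Matrix.of_apply]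
          rw [Finset.sum_comm]
          refine Finset.sum_congr rfl fun i _ => Finset.sum_congr rfl fun j _ => ?_
          rw [mul_comm])
      have h5 := congrFun (congrFun h0 j₀) i₀
      rw [Matrix.of_apply, hc1] at h5
      simp at h5
    let b := finBasis ℚ R
    have hb : Submodule.span ℚ_[(q₀ : ℕ)] (Set.range fun i => ψ q₀ (b i)) = ⊤ := by
      rw [eq_top_iff, ← hsp, Submodule.span_le]
      rintro _ ⟨l, rfl⟩
      show qM (s q₀ l) ∈ Submodule.span ℚ_[(q₀ : ℕ)] (Set.range fun i => ψ q₀ (b i))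
      rw [← hψ, ← b.sum_repr (σ l), map_sum]
      refine Submodule.sum_mem _ fun i _ => ?_
      rw [map_smul]
      have h6 : (b.repr (σ l) i) • (ψ q₀ (b i)) =
          ((b.repr (σ l) i : ℚ) : ℚ_[(q₀ : ℕ)]) • (ψ q₀ (b i)) := by
        ext a c
        rw [Matrix.smul_apply, Matrix.smul_apply, Rat.smul_def, smul_eq_mul]
      rw [h6]
      exact Submodule.smul_mem _ _ (Submodule.subset_span ⟨i, rfl⟩)
    have hli : LinearIndependent ℚ_[(q₀ : ℕ)] (fun i => ψ q₀ (b i)) := by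
      apply linearIndependent_of_top_le_span_of_card_eq_finrank hb.ge
      rw [Fintype.card_fin, hR, Module.finrank_matrix, Module.finrank_self, mul_one,
        Fintype.card_fin]
    have h7 : ∑ i, ((b.repr x i : ℚ) : ℚ_[(q₀ : ℕ)]) • (ψ q₀ (b i)) = 0 := by
      rw [← hx]
      conv_rhs => rw [← b.sum_repr x, map_sum]
      refine Finset.sum_congr rfl fun i _ => ?_
      rw [map_smul]
      ext a c
      rw [Matrix.smul_apply, Matrix.smul_apply, Rat.smul_def, smul_eq_mul]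
    have h8 := Fintype.linearIndependent_iff.1 hli _ h7
    rw [← b.sum_repr x]
    refine Finset.sum_eq_zero fun i _ => ?_
    have h9 : (b.repr x i : ℚ) = 0 := by exact_mod_cast h8 i
    rw [h9, zero_smul]
  -- the finite family
  obtain ⟨B, hBs, hBspan, hBli⟩ := exists_linearIndependent ℚ (Set.range σ)
  have hBfin : B.Finite := hBli.setFinite
  haveI : Fintype B := hBfin.fintype
  let L : R →ₗ[ℤ] (B → ℚ) :=
    { toFun := fun x y => τ (x * y.1)
      map_add' := by
        intro x x'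
        funext y
        show τ ((x + x') * y.1) = τ (x * y.1) + τ (x' * y.1)
        rw [add_mul, ← hτL, map_add]
        rfl
      map_smul' := by
        intro c x
        funext y
        show τ ((c • x) * y.1) = c • τ (x * y.1)
        rw [smul_mul_assoc, ← hτL, map_zsmul]
        rfl }
  have hLinj : Function.Injective L := by
    rw [← LinearMap.ker_eq_bot, LinearMap.ker_eq_bot']
    intro x hx
    have h4 : ∀ y ∈ B, τ (x * y) = 0 := fun y hy => congrFun hx ⟨y, hy⟩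
    have h5 : ∀ y, τ (x * y) = 0 := by
      intro y
      have hy : y ∈ Submodule.span ℚ B := by rw [hBspan, hspan]; trivial
      have h6 : Submodule.span ℚ B ≤ LinearMap.ker (τL ∘ₗ LinearMap.mulLeft ℚ x) := by
        rw [Submodule.span_le]
        intro y hy
        exact h4 y hy
      exact h6 hy
    apply hinj
    apply ORA_zero hn (q₀ : ℕ) (fun l => s q₀ l) (hdens q₀)
    intro l
    rw [← hψ, ← map_mul, hτ, h5]
    simp
  refine ⟨AddSubgroup.toIntSubmodule (OO ψ).toAddSubgroup, ?_, fun x => Iff.rfl⟩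
  refine Submodule.fg_of_fg_map_injective L hLinj ?_
  let N : Submodule ℤ (B → ℚ) := LinearMap.range
    (LinearMap.funLeft ℤ ℚ (id : B → B) ∘ₗ
      (LinearMap.pi fun y : B => (Int.castAddHom ℚ).toIntLinearMap ∘ₗ LinearMap.proj y :
        (B → ℤ) →ₗ[ℤ] (B → ℚ)))
  have hN : N.FG := by
    show (LinearMap.range _).FG
    rw [LinearMap.range_eq_map]
    exact Submodule.FG.map _ (Module.Finite.fg_top)
  haveI : IsNoetherian ℤ N := isNoetherian_of_fg_of_noetherian N hN
  refine Submodule.FG.of_le_of_isNoetherian (T := N) ?_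
  rintro _ ⟨x, hx, rfl⟩
  have hx' : x ∈ OO ψ := hx
  have h4 : ∀ y : B, ∃ z : ℤ, τ (x * y.1) = z := by
    intro y
    obtain ⟨l, hl⟩ := hBs y.2
    apply h2
    rw [← hl]
    exact Subring.mul_mem _ hx' (h1 l)
  choose z hz using h4
  exact ⟨z, funext fun y => (hz y).symm⟩

end Pool.Agent.SHL
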